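import Pool.Agent.R872.SEC.Final
import Pool.Agent.R584.SEC.MOL
import Pool.Agent.R281.SEC.GEO
import Pool.Agent.R961.SEC.UPG
import Pool.Agent.R961.SEC.AREA1
import Pool.Agent.R872.SEC.AREA2
import Pool.Agent.R872.SEC.DENS
import Pool.Agent.R872.SEC.TC
import Pool.Agent.R872.SEC.CUT
import Pool.Agent.R961.SEC.KA1
import Pool.Agent.R872.SEC.KA2
import Pool.Agent.R961.SEC.ARC
import Pool.Agent.R872.SEC.KA3
import Pool.Agent.R872.SEC.KB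
import Pool.Agent.R872.SEC.GF
import Pool.Agent.R872.SEC.MAIN
import Pool.Agent.R872.SEC.EPS

open Pool.R872.SEC
open scoped ContDiff

namespace Pool.Agent.Results.MP_d56274_gt.ArcsIffAngle

/-- `theta_0` sector with density `r^p`, `p > 0`.  The region bounded by an arc about the origin is
isoperimetric if and only if `θ₀ ≤ π / √(p + 1)`; it is enough that it beats the regions
`{r < f θ}` with `f` smooth and positive.  Hence the monotonicity in the exponent (Q1, yes). -/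
theorem result :
    (∀ θ₀ p q ρ : ℝ, 0 < θ₀ → 0 < q → q < p → 0 < ρ →
      IsIso θ₀ p (arcRegion θ₀ ρ) → IsIso θ₀ q (arcRegion θ₀ ρ)) ∧
    (∀ θ₀ p ρ : ℝ, 0 < θ₀ → 0 < p → 0 < ρ →
      (IsIso θ₀ p (arcRegion θ₀ ρ) ↔ θ₀ ≤ Real.pi / Real.sqrt (p + 1))) ∧
    (∀ θ₀ p ρ : ℝ, 0 < θ₀ → 0 < p → 0 < ρ →
      (∀ f : ℝ → ℝ, ContDiff ℝ ∞ f → (∀ θ, 0 < f θ) →
        area p (graphRegion θ₀ f) = area p (arcRegion θ₀ ρ) →
        perimeter θ₀ p (arcRegion θ₀ ρ) ≤ perimeter θ₀ p (graphRegion θ₀ f)) →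
      θ₀ ≤ Real.pi / Real.sqrt (p + 1)) ∧
    (∀ θ₀ p ρ : ℝ, 0 < θ₀ → 0 < p → 0 < ρ →
      area p (arcRegion θ₀ ρ) = ENNReal.ofReal (θ₀ * (ρ ^ (p + 2) / (p + 2))) ∧
      perimeter θ₀ p (arcRegion θ₀ ρ) = ENNReal.ofReal (θ₀ * ρ ^ (p + 1))) := by
  have hGEO : S_GEO := Pool.Agent.R281.SEC.GEO MOL
  have hKA3 : S_KA3 := KA3 (KA2 KA1) ARC
  have hM : S_MAIN := MAIN (GF TC hKA3 KB DENS) CUT TC DENS
  refine ⟨?_, ?_, ?_, ?_⟩
  · intro θ₀ p q ρ hθ hq hqp hρ h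
    have hp : 0 < p := hq.trans hqp
    have h1 : θ₀ ≤ Real.pi / Real.sqrt (p + 1) := nec hGEO UPG AREA1 AREA2 TC EPS hθ hp hρ h
    refine suff hGEO UPG AREA1 AREA2 hM hθ hq hρ (h1.trans ?_)
    have h2 : 0 < Real.sqrt (q + 1) := Real.sqrt_pos.2 (by linarith)
    have h3 : Real.sqrt (q + 1) ≤ Real.sqrt (p + 1) := Real.sqrt_le_sqrt (by linarith)
    exact div_le_div_of_nonneg_left Real.pi_pos.le h2 h3
  · intro θ₀ p ρ hθ hp hρ
    exact ⟨nec hGEO UPG AREA1 AREA2 TC EPS hθ hp hρ, suff hGEO UPG AREA1 AREA2 hM hθ hp hρ⟩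
  · intro θ₀ p ρ hθ hp hρ h
    exact nec' hGEO UPG AREA1 AREA2 TC EPS hθ hp hρ h
  · intro θ₀ p ρ hθ hp hρ
    exact ⟨area_arc AREA1 hθ hp hρ, le_antisymm (perim_arc_le UPG hθ hp hρ)
      (perim_arc_ge hGEO AREA1 AREA2 TC hθ hp hρ)⟩

end Pool.Agent.Results.MP_d56274_gt.ArcsIffAngle
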